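import Pool.Agent.H883.ZS.Dim2
import Pool.Agent.H883.ZR.Near

set_option autoImplicit false

/-!
# Points near subgroups on products of lines: the dimension of their closure
-/

namespace Pool.Agent.H883.ZS

open MvPolynomial

/-- If any `k` of the coordinates satisfy a nontrivial polynomial equation on an irreducible closed
subset of the affine space then its dimension is less than `k`. -/
theorem dim_lt {K0 L : Type} [Field K0] [Field L] [Algebra K0 L] {c k : ℕ}
    (P : Ideal (MvPolynomial (Fin c) L)) (hP : P.IsPrime)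
    (G : (Fin k ↪ Fin c) → MvPolynomial (Fin k) K0) (hG0 : ∀ e, G e ≠ 0)
    (hG : ∀ e : Fin k ↪ Fin c, rename e (MvPolynomial.map (algebraMap K0 L) (G e)) ∈ P) (d : ℕ)
    (hd : Algebra.trdeg L (MvPolynomial (Fin c) L ⧸ P) = d) : d < k := by
  classical
  have : IsDomain (MvPolynomial (Fin c) L ⧸ P) := Ideal.Quotient.isDomain P
  let x : Fin c → MvPolynomial (Fin c) L ⧸ P := fun l => Ideal.Quotient.mk P (X l)
  have hadj : Algebra.adjoin L (Set.range x) = ⊤ := by
    have h1 := AlgHom.map_adjoin (Ideal.Quotient.mkₐ L P) (Set.range (X : Fin c → _))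
    rw [MvPolynomial.adjoin_range_X, ← Set.range_comp] at h1
    have h2 : (Ideal.Quotient.mkₐ L P : MvPolynomial (Fin c) L → _) ∘ X = x := rfl
    rw [h2] at h1
    rw [← h1, Algebra.map_top]
    exact AlgHom.range_eq_top _ |>.2 (Ideal.Quotient.mkₐ_surjective L P)
  have halg : Algebra.IsAlgebraic (Algebra.adjoin L (Set.range x)) (MvPolynomial (Fin c) L ⧸ P) :=
    ⟨fun y => isAlgebraic_algebraMap
      (⟨y, hadj ▸ Algebra.mem_top⟩ : Algebra.adjoin L (Set.range x))⟩
  obtain ⟨s, hsS, hs⟩ := exists_isTranscendenceBasis_subset (R := L)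
    (A := MvPolynomial (Fin c) L ⧸ P) (Set.range x)
  have hcard := hs.cardinalMk_eq_trdeg
  rw [hd, Cardinal.mk_eq_nat_iff] at hcard
  obtain ⟨eq⟩ := hcard
  by_contra hcon
  push Not at hcon
  let f : Fin k → s := fun j => eq.symm (Fin.castLE hcon j)
  have hf : Function.Injective f := eq.symm.injective.comp (Fin.castLE_injective hcon)
  have hfx : ∀ j, ∃ i, x i = (f j : MvPolynomial (Fin c) L ⧸ P) := fun j => hsS (f j).2
  choose e he using hfx
  have hinj : Function.Injective e := fun j1 j2 h =>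
    hf (Subtype.ext (by rw [← he, ← he, h]))
  let e' : Fin k ↪ Fin c := ⟨e, hinj⟩
  have hind : AlgebraicIndependent L (fun j => x (e' j)) := by
    have h4 := hs.1.comp f hf
    have h5 : ((Subtype.val : s → _) ∘ f) = fun j => x (e' j) := funext fun j => (he j).symm
    rw [← h5]
    exact h4
  have h6 : aeval (fun j => x (e' j)) (MvPolynomial.map (algebraMap K0 L) (G e')) = 0 := by
    have h7 := Ideal.Quotient.eq_zero_iff_mem.2 (hG e')
    have h8 := MvPolynomial.comp_aeval_apply (f := fun j => (X (e' j) : MvPolynomial (Fin c) L))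
      (Ideal.Quotient.mkₐ L P) (MvPolynomial.map (algebraMap K0 L) (G e'))
    have h9 : aeval (fun j => (X (e' j) : MvPolynomial (Fin c) L))
        (MvPolynomial.map (algebraMap K0 L) (G e')) =
        rename e' (MvPolynomial.map (algebraMap K0 L) (G e')) := by
      rw [← MvPolynomial.aeval_X_left_apply
        (rename e' (MvPolynomial.map (algebraMap K0 L) (G e'))), aeval_rename]
      rfl
    rw [h9] at h8
    exact h8.symm.trans h7
  have h8 : MvPolynomial.map (algebraMap K0 L) (G e') = 0 := hind (by rw [h6, map_zero])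
  refine hG0 e' (MvPolynomial.map_injective (algebraMap K0 L) (algebraMap K0 L).injective ?_)
  rw [h8, map_zero]

/-- points near subgroups: all subsets of `k` of the `c` lines -/
theorem near_all (K0 : Type) [Field K0] [NumberField K0] (c k r : ℕ)
    (hr : (r < k ∧ r ≤ 3) ∨ (r - 1) ^ 2 + 2 ≤ k) (a b : Fin c → K0)
    (ha : ∀ i, a i ≠ 0) (hb : ∀ i, b i ≠ 0) :
    ∃ G : (Fin k ↪ Fin c) → MvPolynomial (Fin k) K0, (∀ e, G e ≠ 0) ∧ ∃ ε : ℝ, 0 < ε ∧
      ∀ (K : Type) [Field K] [NumberField K] [Algebra K0 K] (P g e : Fin c ⊕ Fin c → K),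
        (∀ r, P r ≠ 0) →
        (∀ i, algebraMap K0 K (a i) * P (Sum.inl i) + algebraMap K0 K (b i) * P (Sum.inr i) = 1) →
        (∀ r, P r = g r * e r) → (∃ m, Pool.Agent.H883.ZP.Codim g m ∧ 2 * c ≤ m + r) →
        (∀ r, Pool.Agent.H883.ZQ.ht (e r) ≤ ε) →
        ∀ f, aeval (fun j => P (Sum.inl (f j))) (G f) = 0 := by
  classical
  have H := fun f : Fin k ↪ Fin c => Pool.Agent.H883.ZR.A2.near K0 k r (fun j => a (f j))
    (fun j => b (f j)) (fun j => ha (f j)) (fun j => hb (f j)) hr
  choose G hG ε hε H using H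
  obtain ⟨ε0, hε0, hle⟩ : ∃ ε0 : ℝ, 0 < ε0 ∧ ∀ f, ε0 ≤ ε f := by
    by_cases hne : Nonempty (Fin k ↪ Fin c)
    · obtain ⟨f0, hf0⟩ := Finite.exists_min ε
      exact ⟨ε f0, hε f0, hf0⟩
    · exact ⟨1, one_pos, fun f => absurd ⟨f⟩ hne⟩
  refine ⟨G, hG, ε0, hε0, ?_⟩
  intro K _ _ _ P g e h0 h4 h5 ⟨m, h6, hm⟩ h7 f
  exact H f K (P ∘ Sum.map f f) (g ∘ Sum.map f f) (e ∘ Sum.map f f) (fun r => h0 _)
    (fun i => h4 _) (fun r => h5 _)
    (Pool.Agent.H883.ZR.INT.codim_sub g f f.injective h6 (2 * k - r) (by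
      have hk : r ≤ 2 * k := by
        rcases hr with h | h
        · omega
        · have : r ≤ (r - 1) ^ 2 + 2 := by
            rcases r with _ | _ | r
            · omega
            · omega
            · have : r + 1 + 1 - 1 = r + 1 := by omega
              rw [this]
              nlinarith
          omega
      omega))
    (fun r => (h7 _).trans (hle f))

end Pool.Agent.H883.ZS
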