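import Pool.Agent.H883.ZS.Ext

set_option autoImplicit false

/-!
# Cutting a subvariety of the torus with torsion cosets
-/

namespace Pool.Agent.H883.ZS

open MvPolynomial Pool.Agent.H883.ZP

/-- there are infinitely many roots of unity -/
lemma inf_roots (L : Type) [Field L] [IsAlgClosed L] [CharZero L] :
    {x : L | ∃ N : ℕ, 0 < N ∧ x ^ N = 1}.Infinite := by
  have h : ∀ N : ℕ, ∃ x : L, IsPrimitiveRoot x (N + 1) := fun N => by
    have : NeZero ((N + 1 : ℕ) : L) := ⟨Nat.cast_ne_zero.2 (Nat.succ_ne_zero N)⟩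
    exact HasEnoughRootsOfUnity.exists_primitiveRoot L (N + 1)
  choose ζ hζ using h
  refine Set.infinite_of_injective_forall_mem (f := ζ) ?_ ?_
  · intro N M h
    have h1 := hζ N
    rw [h] at h1
    have := h1.unique (hζ M)
    omega
  · intro N
    exact ⟨N + 1, Nat.succ_pos N, (hζ N).pow_eq_one⟩

/-- the elements of the fraction field are algebraic over the polynomials in a transcendence
basis -/
lemma alg_poly {L A Ω : Type} [Field L] [CommRing A] [IsDomain A] [Algebra L A] [Field Ω]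
    [Algebra A Ω] [IsFractionRing A Ω] [Algebra L Ω] [IsScalarTower L A Ω] {d : ℕ} (x : Fin d → A)
    (hx : IsTranscendenceBasis L x) (s : Ω) :
    ∃ p : Polynomial (MvPolynomial (Fin d) L), p ≠ 0 ∧
      p.eval₂ (aeval (fun j => algebraMap A Ω (x j)) :
        MvPolynomial (Fin d) L →ₐ[L] Ω).toRingHom s = 0 := by
  let _ : Algebra (MvPolynomial (Fin d) L) A := (aeval x).toAlgebra
  have hA : Algebra.IsAlgebraic (MvPolynomial (Fin d) L) A := by
    have h1 := hx.isAlgebraic
    refine Algebra.IsAlgebraic.of_ringHom_of_comp_eq hx.1.aevalEquiv.toRingEquiv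
        (RingHom.id A) hx.1.aevalEquiv.surjective Function.injective_id ?_
    refine RingHom.ext fun p => ?_
    exact hx.1.algebraMap_aevalEquiv p
  let _ : Algebra (MvPolynomial (Fin d) L) Ω :=
    ((algebraMap A Ω).comp (algebraMap (MvPolynomial (Fin d) L) A)).toAlgebra
  have : IsScalarTower (MvPolynomial (Fin d) L) A Ω := IsScalarTower.of_algebraMap_eq fun _ => rfl
  have h2 : Algebra.IsAlgebraic A Ω := 
    (IsFractionRing.comap_isAlgebraic_iff (A := A) (K := Ω) (C := Ω)).2 inferInstance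
  have h3 : Algebra.IsAlgebraic (MvPolynomial (Fin d) L) Ω := Algebra.IsAlgebraic.trans _ A Ω
  obtain ⟨p, hp0, hp⟩ := h3.isAlgebraic s
  refine ⟨p, hp0, ?_⟩
  rw [Polynomial.aeval_def] at hp
  rw [← hp]
  congr 1
  refine RingHom.ext fun r => ?_
  have h1 := MvPolynomial.comp_aeval_apply (f := x) (IsScalarTower.toAlgHom L A Ω) r
  exact h1.symm

/-- Let `W` be the irreducible subvariety of the torus given by the prime ideal `P`, of dimension
`d`. There are `d` coordinates which take almost all values on `W`, outside a given hypersurface. -/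
theorem fibre {L : Type} [Field L] [IsAlgClosed L] {n c d : ℕ} (P : Ideal (MvPolynomial (Fin n) L))
    (hP : P.IsPrime) (hX : ∀ l, X l ∉ P)
    (hd : Algebra.trdeg L (MvPolynomial (Fin n) L ⧸ P) = d) :
    ∃ J : Fin d → Fin n, ∀ (a : Fin c → L) (α : Fin c → Fin n → ℤ) (G : MvPolynomial (Fin c) ℤ)
      (z0 : Fin n → L), (∀ l, z0 l ≠ 0) → (∀ f ∈ P, eval z0 f = 0) →
      aeval (fun i => a i * mon z0 (α i)) G ≠ 0 →
      ∃ b : MvPolynomial (Fin d) L, b ≠ 0 ∧ ∀ τ : Fin d → L, eval τ b ≠ 0 →
        ∃ z : Fin n → L, (∀ l, z l ≠ 0) ∧ (∀ f ∈ P, eval z f = 0) ∧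
          aeval (fun i => a i * mon z (α i)) G ≠ 0 ∧ ∀ j, z (J j) = τ j := by
  classical
  let A := MvPolynomial (Fin n) L ⧸ P
  have : IsDomain A := Ideal.Quotient.isDomain P
  let Ω := FractionRing A
  let x : Fin n → A := fun l => Ideal.Quotient.mk P (X l)
  have hx0 : ∀ l, x l ≠ 0 := fun l h => hX l (Ideal.Quotient.eq_zero_iff_mem.1 h)
  have hadj : Algebra.adjoin L (Set.range x) = ⊤ := by
    have h1 := AlgHom.map_adjoin (Ideal.Quotient.mkₐ L P) (Set.range (X : Fin n → _))
    rw [MvPolynomial.adjoin_range_X, ← Set.range_comp] at h1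
    have h2 : (Ideal.Quotient.mkₐ L P : MvPolynomial (Fin n) L → A) ∘ X = x := rfl
    rw [h2] at h1
    rw [← h1, Algebra.map_top]
    exact AlgHom.range_eq_top _ |>.2 (Ideal.Quotient.mkₐ_surjective L P)
  have halg : Algebra.IsAlgebraic (Algebra.adjoin L (Set.range x)) A := ⟨fun y =>
    isAlgebraic_algebraMap (⟨y, hadj ▸ Algebra.mem_top⟩ : Algebra.adjoin L (Set.range x))⟩
  obtain ⟨t, hts, ht⟩ := exists_isTranscendenceBasis_subset (R := L) (A := A) (Set.range x)
  have hcard := ht.cardinalMk_eq_trdeg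
  rw [hd, Cardinal.mk_eq_nat_iff] at hcard
  obtain ⟨e⟩ := hcard
  have hJ : ∀ j : Fin d, ∃ l, x l = (e.symm j : A) := fun j => hts (e.symm j).2
  choose J hJ using hJ
  have htA : IsTranscendenceBasis L (fun j => x (J j)) := by
    have h1 := ht.comp_equiv e.symm
    have h2 : (Subtype.val : t → A) ∘ e.symm = fun j => x (J j) := by
      funext j
      exact (hJ j).symm
    rw [← h2]
    exact h1
  refine ⟨J, fun a α G z0 hz0 hz0P hG => ?_⟩
  let ι : A →ₐ[L] Ω := IsScalarTower.toAlgHom L A Ω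
  have hι : Function.Injective ι := IsFractionRing.injective A Ω
  let Z : Fin n → Ω := fun l => ι (x l)
  have hZ : ∀ l, Z l ≠ 0 := fun l h => hx0 l (hι (by rw [map_zero]; exact h))
  have hZF : ∀ F : MvPolynomial (Fin n) L, aeval Z F = ι (Ideal.Quotient.mk P F) := by
    intro F
    have h1 := MvPolynomial.comp_aeval_apply (f := x) ι F
    rw [← h1]
    congr 1
    have h2 := MvPolynomial.comp_aeval_apply (f := (X : Fin n → MvPolynomial (Fin n) L))
      (Ideal.Quotient.mkₐ L P) F
    rw [aeval_X_left_apply] at h2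
    exact h2.symm
  -- the function on `W` is not zero
  set γ : Ω := aeval (fun i => algebraMap L Ω (a i) * mon Z (α i)) G with hγ
  have hγ0 : γ ≠ 0 := by
    intro h0
    let q : MvPolynomial (Fin n) L := ∏ l, X l
    let B := Localization.Away q
    have hqu : ∀ l, IsUnit (algebraMap (MvPolynomial (Fin n) L) B (X l)) := fun l => by
      have h1 := IsLocalization.Away.algebraMap_isUnit (S := B) q
      have h2 : algebraMap (MvPolynomial (Fin n) L) B q =
        ∏ l, algebraMap (MvPolynomial (Fin n) L) B (X l) := map_prod _ _ _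
      rw [h2] at h1
      exact isUnit_of_dvd_unit (Finset.dvd_prod_of_mem
        (fun l => algebraMap (MvPolynomial (Fin n) L) B (X l)) (Finset.mem_univ l)) h1
    let Zu : Fin n → Bˣ := fun l => (hqu l).unit
    have hZu : ∀ l, (Zu l : B) = algebraMap (MvPolynomial (Fin n) L) B (X l) := fun l => rfl
    have hq1 : IsUnit ((aeval Z : MvPolynomial (Fin n) L →ₐ[L] Ω).toRingHom q) := by
      refine isUnit_iff_ne_zero.2 ?_
      show aeval Z q ≠ 0
      simp only [q, map_prod, aeval_X]
      exact Finset.prod_ne_zero_iff.2 fun l _ => hZ l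
    have hq2 : IsUnit (eval z0 q) := by
      refine isUnit_iff_ne_zero.2 ?_
      simp only [q, map_prod, eval_X]
      exact Finset.prod_ne_zero_iff.2 fun l _ => hz0 l
    let φ1 : B →+* Ω := IsLocalization.Away.lift q hq1
    let φ2 : B →+* L := IsLocalization.Away.lift q (g := eval z0) hq2
    have hφ1 : ∀ F, φ1 (algebraMap _ B F) = aeval Z F := fun F =>
      IsLocalization.Away.lift_eq q hq1 F
    have hφ2 : ∀ F, φ2 (algebraMap _ B F) = eval z0 F := fun F =>
      IsLocalization.Away.lift_eq q hq2 F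
    let y : B := aeval (fun i => algebraMap (MvPolynomial (Fin n) L) B (MvPolynomial.C (a i)) *
      (monU Zu (α i) : B)) G
    have hy1 : φ1 y = γ := by
      refine (map_aevalZ' φ1 _ G).trans ?_
      rw [hγ]
      congr 2
      funext i
      rw [map_mul, map_monU, hφ1]
      congr 1
      · rw [← MvPolynomial.algebraMap_eq, AlgHom.commutes]
      · congr 1
        funext l
        rw [hZu, hφ1, aeval_X]
    have hy2 : φ2 y = aeval (fun i => a i * mon z0 (α i)) G := by
      refine (map_aevalZ' φ2 _ G).trans ?_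
      congr 2
      funext i
      rw [map_mul, map_monU, hφ2]
      congr 1
      · simp
      · congr 1
        funext l
        rw [hZu, hφ2, eval_X]
    obtain ⟨⟨r, s⟩, hs⟩ := IsLocalization.surj (Submonoid.powers q) y
    have h1 := congrArg φ1 hs
    simp only [map_mul, hy1, h0, zero_mul, hφ1] at h1
    rw [hZF] at h1
    have h2 : Ideal.Quotient.mk P r = 0 := hι (by rw [← h1, map_zero])
    have h3 := hz0P r (Ideal.Quotient.eq_zero_iff_mem.1 h2)
    have h4 := congrArg φ2 hs
    simp only [map_mul, hy2, hφ2, h3] at h4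
    have h5 : eval z0 (s : MvPolynomial (Fin n) L) ≠ 0 := by
      obtain ⟨k, hk⟩ := s.2
      rw [← hk]
      simp only [map_pow]
      exact pow_ne_zero _ hq2.ne_zero
    exact (mul_ne_zero hG h5) h4
  -- a transcendence basis
  let tΩ : Fin d → Ω := fun j => Z (J j)
  have htΩ : AlgebraicIndependent L tΩ := htA.1.map' hι
  have halgR : ∀ s : Ω, ∃ p : Polynomial (MvPolynomial (Fin d) L), p ≠ 0 ∧
      p.eval₂ (aeval tΩ : MvPolynomial (Fin d) L →ₐ[L] Ω).toRingHom s = 0 :=
    alg_poly (A := A) (Ω := Ω) (fun j => x (J j)) htA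
  let T : Finset Ω := Finset.univ.image Z ∪ Finset.univ.image (fun l => (Z l)⁻¹) ∪ {γ⁻¹}
  obtain ⟨b, hb0, hb⟩ := ext_point tΩ htΩ T fun s _ => halgR s
  refine ⟨b, hb0, fun τ hτ => ?_⟩
  obtain ⟨ψ, hψt⟩ := hb τ hτ
  let A' : Subalgebra L Ω := Algebra.adjoin L ((T : Set Ω) ∪ Set.range tΩ)
  have hsub : ∀ s ∈ T, s ∈ A' := fun s hs => Algebra.subset_adjoin (Or.inl hs)
  have hzA : ∀ l, Z l ∈ A' := fun l => hsub _ (by
    simp only [T, Finset.mem_union]
    exact Or.inl (Or.inl (Finset.mem_image_of_mem _ (Finset.mem_univ l))))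
  have hziA : ∀ l, (Z l)⁻¹ ∈ A' := fun l => hsub _ (by
    simp only [T, Finset.mem_union]
    exact Or.inl (Or.inr (Finset.mem_image_of_mem (fun l => (Z l)⁻¹) (Finset.mem_univ l))))
  have hgA : γ⁻¹ ∈ A' := hsub _ (by simp [T])
  let Zu : Fin n → A'ˣ := fun l => ⟨⟨Z l, hzA l⟩, ⟨(Z l)⁻¹, hziA l⟩,
    Subtype.ext (mul_inv_cancel₀ (hZ l)), Subtype.ext (inv_mul_cancel₀ (hZ l))⟩
  let φ : A' →+* Ω := (A'.val : A' →+* Ω)
  have hφ : Function.Injective φ := Subtype.val_injective
  have hψ : ∀ e : Fin n → ℤ, ψ (monU Zu e : A') = mon (fun l => ψ (Zu l : A')) e := fun e =>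
    map_monU (ψ : A' →+* L) Zu e
  let gA : A' := aeval (fun i => algebraMap L A' (a i) * (monU Zu (α i) : A')) G
  have hgA1 : φ gA = γ := by
    refine (map_aevalZ' φ _ G).trans ?_
    congr 2
    funext i
    rw [map_mul, map_monU]
    rfl
  have hgA2 : ψ gA = aeval (fun i => a i * mon (fun l => ψ (Zu l : A')) (α i)) G := by
    have h2 := map_aevalZ' (ψ : A' →+* L) (fun i => algebraMap L A' (a i) * (monU Zu (α i) : A')) G
    refine h2.trans ?_
    congr 2
    funext i
    show ψ (algebraMap L A' (a i) * (monU Zu (α i) : A')) = _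
    rw [map_mul, hψ, AlgHom.commutes]
    rfl
  have hunit : gA * ⟨γ⁻¹, hgA⟩ = 1 := by
    apply hφ
    rw [map_mul, hgA1, map_one]
    exact mul_inv_cancel₀ hγ0
  have h2 := congrArg ψ hunit
  rw [map_mul, map_one] at h2
  refine ⟨fun l => ψ (Zu l : A'), fun l => ?_, fun F hF => ?_, ?_, fun j => ?_⟩
  · exact ((Zu l).isUnit.map ψ).ne_zero
  · have h3 : aeval (fun l => (Zu l : A')) F = 0 := by
      apply hφ
      have h4 := MvPolynomial.comp_aeval_apply (f := fun l => (Zu l : A')) A'.val F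
      have h5 : aeval Z F = 0 := by
        rw [hZF, Ideal.Quotient.eq_zero_iff_mem.2 hF, map_zero]
      rw [map_zero]
      exact h4.trans h5
    have h4 := MvPolynomial.comp_aeval_apply (f := fun l => (Zu l : A')) ψ F
    rw [aeval_eq_eval, h3, map_zero] at h4
    exact h4.symm
  · intro h
    rw [hgA2, h, zero_mul] at h2
    exact zero_ne_one h2
  · exact hψt j _

end Pool.Agent.H883.ZS
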