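import Pool.Agent.H883.ZS.Cut

set_option autoImplicit false

/-!
# Points of a subvariety of the torus which lie in smaller algebraic subgroups
-/

namespace Pool.Agent.H883.ZS

open MvPolynomial Pool.Agent.H883.ZP

/-- Let `W` be the irreducible subvariety of the torus given by the prime ideal `P`, of dimension
`d`, contained in an algebraic subgroup of codimension `m`. If a function of the given form does
not vanish on `W` then it does not vanish at some point of `W` contained in an algebraic subgroup of
codimension `m + d`. -/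
theorem cut {L : Type} [Field L] [IsAlgClosed L] [CharZero L] {n c d : ℕ}
    (P : Ideal (MvPolynomial (Fin n) L))
    (hP : P.IsPrime) (hX : ∀ l, X l ∉ P)
    (hd : Algebra.trdeg L (MvPolynomial (Fin n) L ⧸ P) = d)
    {m : ℕ} (R : Fin m → Fin n → ℤ) (hR : LinearIndependent ℤ R)
    (hRW : ∀ z : Fin n → L, (∀ l, z l ≠ 0) → (∀ f ∈ P, eval z f = 0) → ∀ k, mon z (R k) = 1)
    (a : Fin c → L) (α : Fin c → Fin n → ℤ) (G : MvPolynomial (Fin c) ℤ)
    (z0 : Fin n → L) (hz0 : ∀ l, z0 l ≠ 0) (hz0P : ∀ f ∈ P, eval z0 f = 0)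
    (hG : aeval (fun i => a i * mon z0 (α i)) G ≠ 0) :
    ∃ z : Fin n → L, (∀ l, z l ≠ 0) ∧ (∀ f ∈ P, eval z f = 0) ∧
      aeval (fun i => a i * mon z (α i)) G ≠ 0 ∧ Codim z (m + d) := by
  classical
  obtain ⟨J, hJ⟩ := fibre (c := c) P hP hX hd
  obtain ⟨b, hb0, hb⟩ := hJ a α G z0 hz0 hz0P hG
  obtain ⟨τ, hτ, hτb⟩ : ∃ τ : Fin d → L, (∀ j, ∃ N : ℕ, 0 < N ∧ τ j ^ N = 1) ∧
      eval τ b ≠ 0 := by
    by_contra hcon
    push Not at hcon
    apply hb0
    refine funext_set (fun _ => {x : L | ∃ N : ℕ, 0 < N ∧ x ^ N = 1}) (fun _ => inf_roots L)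
      fun x hx => ?_
    rw [map_zero]
    exact hcon x fun j => hx j trivial
  obtain ⟨z, hz0', hzP, hzG, hzJ⟩ := hb τ hτb
  choose N hN hNτ using hτ
  refine ⟨z, hz0', hzP, hzG, ?_⟩
  let v : Fin m ⊕ Fin d → Fin n → ℤ := Sum.elim R (fun j => Pi.single (J j) (N j : ℤ))
  -- the value of the additional monomials
  have hsing : ∀ (z : Fin n → L) (j : Fin d), mon z (v (Sum.inr j)) = z (J j) ^ (N j : ℤ) := by
    intro z j
    show ∏ l, z l ^ (Pi.single (J j) (N j : ℤ) : Fin n → ℤ) l = _
    rw [Finset.prod_eq_single (J j)]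
    · rw [Pi.single_eq_same]
    · intro l _ hl
      rw [Pi.single_eq_of_ne hl, zpow_zero]
    · intro h
      exact absurd (Finset.mem_univ _) h
  have hli : LinearIndependent ℤ v := by
    rw [Fintype.linearIndependent_iff]
    intro g hg
    -- the relation between the values of the coordinates
    have hrel : ∀ z : Fin n → L, (∀ l, z l ≠ 0) → (∀ f ∈ P, eval z f = 0) →
        ∏ j, z (J j) ^ ((N j : ℤ) * g (Sum.inr j)) = 1 := by
      intro z hz hzP
      have h1 := mon_mon z hz v g
      have h2 : (fun l => ∑ i, g i * v i l) = 0 := by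
        funext l
        have := congrFun hg l
        simpa [Finset.sum_apply] using this
      rw [h2] at h1
      have h3 : mon z (0 : Fin n → ℤ) = 1 := by simp [mon]
      rw [h3] at h1
      unfold mon at h1
      rw [Fintype.prod_sum_type] at h1
      have h4 : ∀ k : Fin m, (∏ l, z l ^ v (Sum.inl k) l) = 1 := fun k => hRW z hz hzP k
      have h5 : ∀ j : Fin d, (∏ l, z l ^ v (Sum.inr j) l) = z (J j) ^ (N j : ℤ) := fun j =>
        hsing z j
      simp only [h4, h5, one_zpow, Finset.prod_const_one, one_mul] at h1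
      rw [← h1]
      exact Finset.prod_congr rfl fun j _ => zpow_mul _ _ _
    have hr : ∀ j, g (Sum.inr j) = 0 := by
      by_contra hcon
      push Not at hcon
      obtain ⟨j0, hj0⟩ := hcon
      let w : Fin d → ℤ := fun j => (N j : ℤ) * g (Sum.inr j)
      have hw0 : w j0 ≠ 0 := mul_ne_zero (by exact_mod_cast (hN j0).ne') hj0
      let wp : Fin d →₀ ℕ := Finsupp.equivFunOnFinite.symm fun j => (w j).toNat
      let wm : Fin d →₀ ℕ := Finsupp.equivFunOnFinite.symm fun j => (-w j).toNat
      have hne : wp ≠ wm := by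
        intro h
        have := DFunLike.congr_fun h j0
        simp only [wp, wm, Finsupp.equivFunOnFinite_symm_apply_apply] at this
        omega
      let D : MvPolynomial (Fin d) L := monomial wp 1 - monomial wm 1
      have hD : D ≠ 0 := by
        intro h
        have h1 := congrArg (coeff wp) h
        rw [coeff_sub, coeff_monomial, coeff_monomial, if_pos rfl, if_neg hne.symm] at h1
        simp at h1
      have hinf : Infinite L := inferInstance
      obtain ⟨τ', hτ'⟩ : ∃ τ' : Fin d → L, eval τ' (b * D) ≠ 0 := by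
        by_contra hcon
        push Not at hcon
        exact mul_ne_zero hb0 hD (MvPolynomial.funext fun x => by rw [hcon x, map_zero])
      rw [map_mul] at hτ'
      obtain ⟨z', hz', hz'P, -, hz'J⟩ := hb τ' (left_ne_zero_of_mul hτ')
      have h1 := hrel z' hz' hz'P
      apply right_ne_zero_of_mul hτ'
      have hτ0 : ∀ j, τ' j ≠ 0 := fun j => by
        rw [← hz'J j]
        exact hz' _
      have h2 : (∏ j, τ' j ^ (w j)) = 1 := by
        rw [← h1]
        exact Finset.prod_congr rfl fun j _ => by rw [hz'J j]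
      have h3 : (∏ j, τ' j ^ (w j).toNat) = ∏ j, τ' j ^ (-w j).toNat := by
        have h4 : ∀ j, τ' j ^ (w j).toNat = τ' j ^ (w j) * τ' j ^ (-w j).toNat := by
          intro j
          rw [← zpow_natCast, ← zpow_natCast, ← zpow_add₀ (hτ0 j)]
          congr 1
          omega
        simp only [h4]
        rw [Finset.prod_mul_distrib, h2, one_mul]
      show eval τ' (monomial wp 1 - monomial wm 1) = 0
      rw [map_sub, eval_monomial, eval_monomial, one_mul, one_mul,
        Finsupp.prod_fintype _ _ (fun _ => pow_zero _), Finsupp.prod_fintype _ _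
          (fun _ => pow_zero _), sub_eq_zero]
      exact h3
    have hl : ∀ k, g (Sum.inl k) = 0 := by
      rw [Fintype.linearIndependent_iff] at hR
      apply hR
      rw [Fintype.sum_sum_type] at hg
      simp only [hr, zero_smul, Finset.sum_const_zero, add_zero] at hg
      exact hg
    rintro (k | j)
    · exact hl k
    · exact hr j
  refine ⟨v ∘ finSumFinEquiv.symm, hli.comp _ finSumFinEquiv.symm.injective, fun k => ?_⟩
  show mon z (v (finSumFinEquiv.symm k)) = 1
  rcases finSumFinEquiv.symm k with k | j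
  · exact hRW z hz0' hzP k
  · rw [hsing, hzJ, zpow_natCast]
    exact hNτ j

end Pool.Agent.H883.ZS
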