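import Pool.Agent.H883.ZS.Cut2

set_option autoImplicit false

/-!
# The dimension of a subvariety on which many functions vanish
-/

namespace Pool.Agent.H883.ZS

open MvPolynomial Pool.Agent.H883.ZP

/-- the function field of a subvariety of the torus -/
theorem setup {L : Type} [Field L] {n d : ℕ} (P : Ideal (MvPolynomial (Fin n) L))
    (hP : P.IsPrime) (hX : ∀ l, X l ∉ P)
    (hd : Algebra.trdeg L (MvPolynomial (Fin n) L ⧸ P) = d) :
    ∃ (Ω : Type) (_ : Field Ω) (_ : Algebra L Ω) (Z : Fin n → Ω) (t : Fin d → Ω),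
      (∀ l, Z l ≠ 0) ∧ (∀ f ∈ P, aeval Z f = 0) ∧
      (∀ y : Ω, ∃ f g : MvPolynomial (Fin n) L, aeval Z g ≠ 0 ∧ y * aeval Z g = aeval Z f) ∧
      IsTranscendenceBasis L t := by
  classical
  let A := MvPolynomial (Fin n) L ⧸ P
  have : IsDomain A := Ideal.Quotient.isDomain P
  let Ω := FractionRing A
  let x : Fin n → A := fun l => Ideal.Quotient.mk P (X l)
  have hx0 : ∀ l, x l ≠ 0 := fun l h => hX l (Ideal.Quotient.eq_zero_iff_mem.1 h)
  obtain ⟨ι', t, ht⟩ := exists_isTranscendenceBasis' L (A := A)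
  have hcard := ht.cardinalMk_eq_trdeg
  rw [hd, Cardinal.mk_eq_nat_iff] at hcard
  obtain ⟨e⟩ := hcard
  let ι : A →ₐ[L] Ω := IsScalarTower.toAlgHom L A Ω
  have hι : Function.Injective ι := IsFractionRing.injective A Ω
  let Z : Fin n → Ω := fun l => ι (x l)
  have hZ : ∀ l, Z l ≠ 0 := fun l h => hx0 l (hι (by rw [map_zero]; exact h))
  have hZF : ∀ F : MvPolynomial (Fin n) L, aeval Z F = ι (Ideal.Quotient.mk P F) := by
    intro F
    have h1 := MvPolynomial.comp_aeval_apply (f := x) ι F
    rw [← h1]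
    congr 1
    have h2 := MvPolynomial.comp_aeval_apply (f := (X : Fin n → MvPolynomial (Fin n) L))
      (Ideal.Quotient.mkₐ L P) F
    rw [aeval_X_left_apply] at h2
    exact h2.symm
  refine ⟨Ω, inferInstance, inferInstance, Z, algebraMap A Ω ∘ (t ∘ e.symm), hZ, ?_, ?_, ?_⟩
  · intro f hf
    rw [hZF, Ideal.Quotient.eq_zero_iff_mem.2 hf, map_zero]
  · intro y
    obtain ⟨p, q, hq, rfl⟩ := IsFractionRing.div_surjective (A := A) y
    obtain ⟨f, rfl⟩ := Ideal.Quotient.mk_surjective p
    obtain ⟨g, rfl⟩ := Ideal.Quotient.mk_surjective q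
    have hq0 : algebraMap A Ω (Ideal.Quotient.mk P g) ≠ 0 :=
      IsLocalization.to_map_ne_zero_of_mem_nonZeroDivisors Ω le_rfl hq
    refine ⟨f, g, ?_, ?_⟩
    · rw [hZF]
      exact hq0
    · rw [hZF, hZF]
      exact div_mul_cancel₀ _ hq0
  · have h2 : Algebra.IsAlgebraic A Ω :=
      (IsFractionRing.comap_isAlgebraic_iff (A := A) (K := Ω) (C := Ω)).2 inferInstance
    exact (ht.comp_equiv e.symm).algebraMap_comp

/-- a function which vanishes at all points of a subvariety of the torus vanishes in the function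
field -/
theorem transfer {L Ω : Type} [Field L] [IsAlgClosed L] [Field Ω] [Algebra L Ω] {n N : ℕ}
    (P : Ideal (MvPolynomial (Fin n) L)) (Z : Fin n → Ω) (hZ : ∀ l, Z l ≠ 0)
    (hPZ : ∀ f ∈ P, aeval Z f = 0) (a : Fin N → L) (α : Fin N → Fin n → ℤ)
    (G : MvPolynomial (Fin N) ℤ)
    (h : ∀ z : Fin n → L, (∀ l, z l ≠ 0) → (∀ f ∈ P, eval z f = 0) →
      aeval (fun i => a i * mon z (α i)) G = 0) :
    aeval (fun i => algebraMap L Ω (a i) * mon Z (α i)) G = 0 := by
  classical
  by_contra hγ0
  set γ : Ω := aeval (fun i => algebraMap L Ω (a i) * mon Z (α i)) G with hγ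
  let T : Finset Ω := Finset.univ.image Z ∪ Finset.univ.image (fun l => (Z l)⁻¹) ∪ {γ⁻¹}
  let A' : Subalgebra L Ω := Algebra.adjoin L (T : Set Ω)
  have hFT : Algebra.FiniteType L A' :=
    (Subalgebra.fg_iff_finiteType A').1 ⟨T, rfl⟩
  obtain ⟨ψ⟩ := exists_point L A'
  have hsub : ∀ s ∈ T, s ∈ A' := fun s hs => Algebra.subset_adjoin hs
  have hzA : ∀ l, Z l ∈ A' := fun l => hsub _ (by
    simp only [T, Finset.mem_union]
    exact Or.inl (Or.inl (Finset.mem_image_of_mem _ (Finset.mem_univ l))))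
  have hziA : ∀ l, (Z l)⁻¹ ∈ A' := fun l => hsub _ (by
    simp only [T, Finset.mem_union]
    exact Or.inl (Or.inr (Finset.mem_image_of_mem (fun l => (Z l)⁻¹) (Finset.mem_univ l))))
  have hgA : γ⁻¹ ∈ A' := hsub _ (by simp [T])
  let Zu : Fin n → A'ˣ := fun l => ⟨⟨Z l, hzA l⟩, ⟨(Z l)⁻¹, hziA l⟩,
    Subtype.ext (mul_inv_cancel₀ (hZ l)), Subtype.ext (inv_mul_cancel₀ (hZ l))⟩
  let φ : A' →+* Ω := (A'.val : A' →+* Ω)
  have hφ : Function.Injective φ := Subtype.val_injective
  have hψ : ∀ e : Fin n → ℤ, ψ (monU Zu e : A') = mon (fun l => ψ (Zu l : A')) e := fun e =>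
    map_monU (ψ : A' →+* L) Zu e
  let gA : A' := aeval (fun i => algebraMap L A' (a i) * (monU Zu (α i) : A')) G
  have hgA1 : φ gA = γ := by
    refine (map_aevalZ' φ _ G).trans ?_
    rw [hγ]
    congr 2
    funext i
    rw [map_mul, map_monU]
    rfl
  have hgA2 : ψ gA = aeval (fun i => a i * mon (fun l => ψ (Zu l : A')) (α i)) G := by
    have h2 := map_aevalZ' (ψ : A' →+* L) (fun i => algebraMap L A' (a i) * (monU Zu (α i) : A')) G
    refine h2.trans ?_
    congr 2
    funext i
    show ψ (algebraMap L A' (a i) * (monU Zu (α i) : A')) = _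
    rw [map_mul, hψ, AlgHom.commutes]
    rfl
  have hunit : gA * ⟨γ⁻¹, hgA⟩ = 1 := by
    apply hφ
    rw [map_mul, hgA1, map_one]
    exact mul_inv_cancel₀ hγ0
  have h2 := congrArg ψ hunit
  rw [map_mul, map_one] at h2
  rw [hgA2, h (fun l => ψ (Zu l : A')) (fun l => ((Zu l).isUnit.map ψ).ne_zero) ?_, zero_mul] at h2
  · exact zero_ne_one h2
  · intro F hF
    have h3 : aeval (fun l => (Zu l : A')) F = 0 := by
      apply hφ
      have h4 := MvPolynomial.comp_aeval_apply (f := fun l => (Zu l : A')) A'.val F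
      rw [map_zero]
      exact h4.trans (hPZ F hF)
    have h4 := MvPolynomial.comp_aeval_apply (f := fun l => (Zu l : A')) ψ F
    rw [aeval_eq_eval, h3, map_zero] at h4
    exact h4.symm

/-- the unit vectors with index in `E` are independent of the vectors `α`, `β` -/
def Ind {n c : ℕ} (α β : Fin c → Fin n → ℤ) (E : Finset (Fin n)) : Prop :=
  ∀ (u v : Fin c → ℤ) (w : Fin n → ℤ), (∀ j ∉ E, w j = 0) →
    (∀ j, ∑ i, u i * α i j + ∑ i, v i * β i j + w j = 0) → u = 0 ∧ v = 0 ∧ w = 0

lemma Ind.card_le {n c : ℕ} {α β : Fin c → Fin n → ℤ} {E : Finset (Fin n)} (h : Ind α β E) :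
    E.card + 2 * c ≤ n := by
  classical
  let V : (Fin c ⊕ Fin c) ⊕ E → Fin n → ℤ :=
    Sum.elim (Sum.elim α β) (fun l : E => Pi.single (l : Fin n) 1)
  have hV : LinearIndependent ℤ V := by
    rw [Fintype.linearIndependent_iff]
    intro g hg
    rw [Fintype.sum_sum_type, Fintype.sum_sum_type] at hg
    let w : Fin n → ℤ := fun j => if hj : j ∈ E then g (Sum.inr ⟨j, hj⟩) else 0
    have hw : ∀ j, (∑ l : E, g (Sum.inr l) • V (Sum.inr l)) j = w j := by
      intro j
      rw [Finset.sum_apply]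
      have h1 : ∀ l : E, (g (Sum.inr l) • V (Sum.inr l)) j =
          if (l : Fin n) = j then g (Sum.inr l) else 0 := by
        intro l
        show g (Sum.inr l) * (Pi.single (l : Fin n) (1 : ℤ) : Fin n → ℤ) j = _
        by_cases hlj : (l : Fin n) = j
        · rw [if_pos hlj, ← hlj, Pi.single_eq_same, mul_one]
        · rw [if_neg hlj, Pi.single_eq_of_ne (Ne.symm hlj), mul_zero]
      simp only [h1]
      by_cases hj : j ∈ E
      · rw [Finset.sum_eq_single (⟨j, hj⟩ : E)]
        · simp [w, hj]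
        · intro l _ hl
          rw [if_neg]
          intro h
          exact hl (Subtype.ext h)
        · intro h
          exact absurd (Finset.mem_univ _) h
      · rw [Finset.sum_eq_zero]
        · simp [w, hj]
        · intro l _
          rw [if_neg]
          intro h
          exact hj (h ▸ l.2)
    obtain ⟨h1, h2, h3⟩ := h (fun i => g (Sum.inl (Sum.inl i))) (fun i => g (Sum.inl (Sum.inr i))) w
      (fun j hj => by simp [w, hj]) (fun j => by
        have := congrFun hg j
        rw [Pi.add_apply, Pi.add_apply, hw j, Finset.sum_apply, Finset.sum_apply] at this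
        exact this)
    rintro ((i | i) | l)
    · exact congrFun h1 i
    · exact congrFun h2 i
    · have := congrFun h3 l
      simpa [w] using this
  have := hV.fintype_card_le_finrank
  simp only [Fintype.card_sum, Fintype.card_fin, Fintype.card_coe, Module.finrank_fintype_fun_eq_card]
    at this
  omega

/-- completing independent vectors by unit vectors -/
lemma exists_complement {n c : ℕ} {α β : Fin c → Fin n → ℤ}
    (hind : LinearIndependent ℤ (Sum.elim α β)) :
    ∃ E : Finset (Fin n), E.card + 2 * c ≤ n ∧ ∀ l, ∃ (D : ℤ) (u v : Fin c → ℤ) (w : Fin n → ℤ),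
      D ≠ 0 ∧ (∀ j ∉ E, w j = 0) ∧
      ∀ j, D * (Pi.single l 1 : Fin n → ℤ) j = ∑ i, u i * α i j + ∑ i, v i * β i j + w j := by
  classical
  have h0 : Ind α β ∅ := by
    intro u v w hw h
    have hw0 : w = 0 := funext fun j => hw j (Finset.notMem_empty j)
    rw [Fintype.linearIndependent_iff] at hind
    have h1 := hind (Sum.elim u v) (by
      rw [Fintype.sum_sum_type]
      funext j
      rw [Pi.add_apply, Finset.sum_apply, Finset.sum_apply]
      have := h j
      rw [hw0] at this
      simpa using this)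
    exact ⟨funext fun i => h1 (Sum.inl i), funext fun i => h1 (Sum.inr i), hw0⟩
  obtain ⟨E, hE, hmax⟩ := Finset.exists_max_image
    ((Finset.univ : Finset (Finset (Fin n))).filter (Ind α β)) Finset.card
    ⟨∅, by simp [h0]⟩
  rw [Finset.mem_filter] at hE
  refine ⟨E, hE.2.card_le, fun l => ?_⟩
  by_cases hl : l ∈ E
  · refine ⟨1, 0, 0, Pi.single l 1, one_ne_zero, fun j hj => ?_, fun j => by simp⟩
    rw [Pi.single_eq_of_ne]
    rintro rfl
    exact hj hl
  · have h1 : ¬ Ind α β (insert l E) := by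
      intro h
      have := hmax (insert l E) (by simp [h])
      rw [Finset.card_insert_of_notMem hl] at this
      omega
    unfold Ind at h1
    push Not at h1
    obtain ⟨u, v, w, hw, h2, h3⟩ := h1
    have hwl : w l ≠ 0 := by
      intro hwl
      obtain ⟨h4, h5, h6⟩ := hE.2 u v w (fun j hj => by
        by_cases hjl : j = l
        · rw [hjl, hwl]
        · exact hw j (by simp [hjl, hj])) h2
      exact h3 h4 h5 h6
    refine ⟨w l, fun i => - u i, fun i => - v i, fun j => if j = l then 0 else - w j, hwl, ?_, ?_⟩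
    · intro j hj
      by_cases hjl : j = l
      · simp [hjl]
      · show (if j = l then (0 : ℤ) else - w j) = 0
        rw [if_neg hjl, hw j (by simp [hjl, hj]), neg_zero]
    · intro j
      have := h2 j
      simp only [neg_mul, Finset.sum_neg_distrib]
      by_cases hjl : j = l
      · subst hjl
        rw [Pi.single_eq_same, if_pos rfl]
        linarith
      · rw [Pi.single_eq_of_ne hjl, if_neg hjl]
        linarith

end Pool.Agent.H883.ZS
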