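import Pool.Agent.H883.ZS.Dim

set_option autoImplicit false

/-!
# The dimension of a subvariety on which many functions vanish, II
-/

namespace Pool.Agent.H883.ZS

open MvPolynomial Pool.Agent.H883.ZP

/-- A subvariety `W` of `V` such that any `k` of the functions `x_i = a_i z^{α_i}` satisfy a
nontrivial polynomial equation on `W` has dimension at most `n - 2 c + k - 1`. -/
theorem dim_bound {L : Type} [Field L] [IsAlgClosed L] [CharZero L] {n c d k : ℕ}
    (P : Ideal (MvPolynomial (Fin n) L)) (hP : P.IsPrime) (hX : ∀ l, X l ∉ P)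
    (hd : Algebra.trdeg L (MvPolynomial (Fin n) L ⧸ P) = d)
    (a b : Fin c → L) (ha : ∀ i, a i ≠ 0) (hb : ∀ i, b i ≠ 0) (α β : Fin c → Fin n → ℤ)
    (hind : LinearIndependent ℤ (Sum.elim α β))
    (heq : ∀ z : Fin n → L, (∀ l, z l ≠ 0) → (∀ f ∈ P, eval z f = 0) →
      ∀ i, a i * mon z (α i) + b i * mon z (β i) = 1)
    (G : (Fin k ↪ Fin c) → MvPolynomial (Fin k) ℤ) (hG0 : ∀ e, G e ≠ 0)
    (hG : ∀ z : Fin n → L, (∀ l, z l ≠ 0) → (∀ f ∈ P, eval z f = 0) →
      ∀ e, aeval (fun j => a (e j) * mon z (α (e j))) (G e) = 0) :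
    d + 2 * c < n + k := by
  classical
  obtain ⟨Ω, _, _, Z, t, hZ, hPZ, hfrac, ht⟩ := setup P hP hX hd
  let x : Fin c → Ω := fun i => algebraMap L Ω (a i) * mon Z (α i)
  have hy : ∀ i, algebraMap L Ω (b i) * mon Z (β i) = 1 - x i := by
    intro i
    have h1 := transfer P Z hZ hPZ ![a i, b i] ![α i, β i]
      (X 0 + X 1 - 1 : MvPolynomial (Fin 2) ℤ) (fun z hz hzP => by
        have := heq z hz hzP i
        rw [map_sub, map_add, aeval_X, aeval_X, map_one]
        show a i * mon z (α i) + b i * mon z (β i) - 1 = 0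
        rw [this, sub_self])
    rw [map_sub, map_add, aeval_X, aeval_X, map_one] at h1
    have h2 : algebraMap L Ω (a i) * mon Z (α i) + algebraMap L Ω (b i) * mon Z (β i) - 1 = 0 := h1
    show _ = 1 - algebraMap L Ω (a i) * mon Z (α i)
    linear_combination h2
  have hx : ∀ e, aeval (fun j => x (e j)) (G e) = 0 := fun e =>
    transfer P Z hZ hPZ (fun j => a (e j)) (fun j => α (e j)) (G e)
      (fun z hz hzP => hG z hz hzP e)
  obtain ⟨E, hE, hEl⟩ := exists_complement hind
  let S : Set Ω := Set.range x ∪ Z '' (E : Set (Fin n))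
  let B : Subalgebra L Ω := Algebra.adjoin L S
  have hB : ∀ s ∈ B, IsAlgebraic B s := fun s hs => isAlgebraic_algebraMap (⟨s, hs⟩ : B)
  have hS : ∀ s ∈ S, IsAlgebraic B s := fun s hs => hB s (Algebra.subset_adjoin hs)
  have hL : ∀ r : L, IsAlgebraic B (algebraMap L Ω r) := fun r => hB _ (B.algebraMap_mem r)
  have ha' : ∀ i, algebraMap L Ω (a i) ≠ 0 := fun i => by
    rw [Ne, map_eq_zero_iff _ (algebraMap L Ω).injective]
    exact ha i
  have hb' : ∀ i, algebraMap L Ω (b i) ≠ 0 := fun i => by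
    rw [Ne, map_eq_zero_iff _ (algebraMap L Ω).injective]
    exact hb i
  have hxB : ∀ i, IsAlgebraic B (x i) := fun i => hS _ (Or.inl ⟨i, rfl⟩)
  have hα : ∀ i, IsAlgebraic B (mon Z (α i)) := fun i => by
    have h1 : mon Z (α i) = (algebraMap L Ω (a i))⁻¹ * x i := by
      show _ = (algebraMap L Ω (a i))⁻¹ * (algebraMap L Ω (a i) * mon Z (α i))
      rw [← mul_assoc, inv_mul_cancel₀ (ha' i), one_mul]
    rw [h1]
    exact (IsAlgebraic.inv_iff.2 (hL _)).mul (hxB i)
  have hβ : ∀ i, IsAlgebraic B (mon Z (β i)) := fun i => by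
    have h1 : mon Z (β i) = (algebraMap L Ω (b i))⁻¹ * (1 - x i) := by
      rw [← hy i, ← mul_assoc, inv_mul_cancel₀ (hb' i), one_mul]
    rw [h1]
    exact (IsAlgebraic.inv_iff.2 (hL _)).mul (isAlgebraic_one.sub (hxB i))
  have hzp : ∀ (y : Ω) (m : ℤ), IsAlgebraic B y → IsAlgebraic B (y ^ m) := by
    intro y m hy
    rcases m with m | m
    · simpa using hy.pow m
    · rw [zpow_negSucc]
      exact IsAlgebraic.inv_iff.2 (hy.pow _)
  have hprod : ∀ {κ : Type} [Fintype κ] (f : κ → Ω) (e : κ → ℤ),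
      (∀ i, e i ≠ 0 → IsAlgebraic B (f i)) → IsAlgebraic B (mon f e) := by
    intro κ _ f e h
    unfold mon
    refine Finset.prod_induction _ (IsAlgebraic B) (fun _ _ => IsAlgebraic.mul) isAlgebraic_one
      fun i _ => ?_
    by_cases hi : e i = 0
    · rw [hi, zpow_zero]
      exact isAlgebraic_one
    · exact hzp _ _ (h i hi)
  have hZl : ∀ l, IsAlgebraic B (Z l) := by
    intro l
    obtain ⟨D, u, v, w, hD, hw, h⟩ := hEl l
    have h1 : Z l ^ D = mon (fun i => mon Z (α i)) u * mon (fun i => mon Z (β i)) v * mon Z w := by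
      rw [mon_mon Z hZ, mon_mon Z hZ]
      unfold mon
      rw [← Finset.prod_mul_distrib, ← Finset.prod_mul_distrib]
      have h2 : ∀ j, Z j ^ (∑ i, u i * α i j) * Z j ^ (∑ i, v i * β i j) * Z j ^ w j =
          Z j ^ (D * (Pi.single l 1 : Fin n → ℤ) j) := by
        intro j
        rw [h j, zpow_add₀ (hZ j), zpow_add₀ (hZ j)]
      rw [Finset.prod_congr rfl fun j _ => h2 j, Finset.prod_eq_single l]
      · rw [Pi.single_eq_same, mul_one]
      · intro j _ hj
        rw [Pi.single_eq_of_ne hj, mul_zero, zpow_zero]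
      · intro hl
        exact absurd (Finset.mem_univ _) hl
    have h2 : IsAlgebraic B (Z l ^ D) := by
      rw [h1]
      refine ((hprod _ _ fun i _ => hα i).mul (hprod _ _ fun i _ => hβ i)).mul
        (hprod _ _ fun j hj => hS _ (Or.inr ⟨j, ?_, rfl⟩))
      by_contra hjE
      exact hj (hw j hjE)
    have h3 : IsAlgebraic B (Z l ^ D.natAbs) := by
      rcases Int.natAbs_eq D with h4 | h4
      · rw [← zpow_natCast, ← h4]
        exact h2
      · have h5 : Z l ^ D.natAbs = (Z l ^ D)⁻¹ := by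
          rw [← zpow_natCast, ← zpow_neg]
          congr 1
          omega
        rw [h5]
        exact IsAlgebraic.inv_iff.2 h2
    exact h3.of_pow (Int.natAbs_pos.2 hD)
  have hpol : ∀ F : MvPolynomial (Fin n) L, IsAlgebraic B (aeval Z F) := by
    intro F
    induction F using MvPolynomial.induction_on with
    | C r =>
      rw [← MvPolynomial.algebraMap_eq, AlgHom.commutes]
      exact hL r
    | add p q hp hq =>
      rw [map_add]
      exact hp.add hq
    | mul_X p l hp =>
      rw [map_mul, aeval_X]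
      exact hp.mul (hZl l)
  have halg : Algebra.IsAlgebraic B Ω := ⟨fun y => by
    obtain ⟨f, g, hg, hfg⟩ := hfrac y
    have h1 : y = aeval Z f * (aeval Z g)⁻¹ := by
      rw [← hfg, mul_assoc, mul_inv_cancel₀ hg, mul_one]
    rw [h1]
    exact (hpol f).mul (IsAlgebraic.inv_iff.2 (hpol g))⟩
  obtain ⟨s, hsS, hs⟩ := exists_isTranscendenceBasis_subset (R := L) (A := Ω) S
  have hcard : Cardinal.mk s = (d : Cardinal) := by
    rw [hs.cardinalMk_eq ht]
    simp
  rw [Cardinal.mk_eq_nat_iff] at hcard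
  obtain ⟨eq⟩ := hcard
  have hfin : s.Finite := Set.finite_coe_iff.1 (Finite.of_equiv _ eq.symm)
  have hncard : s.ncard = d := by
    rw [← Nat.card_coe_set_eq, Nat.card_congr eq, Nat.card_fin]
  have h1 : s.ncard ≤ (s ∩ Set.range x).ncard + E.card := by
    have h2 : s ⊆ (s ∩ Set.range x) ∪ Z '' (E : Set (Fin n)) := fun y hy =>
      (hsS hy).elim (fun h => Or.inl ⟨hy, h⟩) Or.inr
    have hfin2 : (Z '' (E : Set (Fin n))).Finite := (E.finite_toSet).image _
    have h3 := Set.ncard_le_ncard h2 ((hfin.inter_of_left _).union hfin2)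
    have h4 := Set.ncard_union_le (s ∩ Set.range x) (Z '' (E : Set (Fin n)))
    have h5 : (Z '' (E : Set (Fin n))).ncard ≤ E.card := by
      have := Set.ncard_image_le (f := Z) E.finite_toSet
      rwa [Set.ncard_coe_finset] at this
    omega
  have h3 : (s ∩ Set.range x).ncard < k := by
    by_contra hcon
    push Not at hcon
    have hfin1 : (s ∩ Set.range x).Finite := hfin.inter_of_left _
    let _ : Fintype (s ∩ Set.range x : Set Ω) := hfin1.fintype
    have hc : Fintype.card (Fin k) ≤ Fintype.card (s ∩ Set.range x : Set Ω) := by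
      rw [Fintype.card_fin, ← Nat.card_eq_fintype_card, Nat.card_coe_set_eq]
      exact hcon
    obtain ⟨f⟩ := Function.Embedding.nonempty_of_card_le hc
    have hf : ∀ j, ∃ i, x i = (f j : Ω) := fun j => (f j).2.2
    choose e he using hf
    have hinj : Function.Injective e := fun j1 j2 h =>
      f.injective (Subtype.ext (by rw [← he, ← he, h]))
    let e' : Fin k ↪ Fin c := ⟨e, hinj⟩
    have hind' : AlgebraicIndependent L (fun j => x (e' j)) := by
      have h4 := hs.1.comp (fun j : Fin k => (⟨(f j : Ω), (f j).2.1⟩ : s))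
        (fun j1 j2 h => f.injective (Subtype.ext (congrArg (Subtype.val : s → Ω) h)))
      have h5 : ((Subtype.val : s → Ω) ∘ fun j : Fin k => (⟨(f j : Ω), (f j).2.1⟩ : s)) =
          fun j => x (e' j) := funext fun j => (he j).symm
      rw [← h5]
      exact h4
    have h6 : aeval (fun j => x (e' j)) (MvPolynomial.map (algebraMap ℤ L) (G e')) = 0 := by
      rw [aeval_map_algebraMap]
      exact hx e'
    have h8 : MvPolynomial.map (algebraMap ℤ L) (G e') = 0 := hind' (by rw [h6, map_zero])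
    refine hG0 e' (MvPolynomial.map_injective (algebraMap ℤ L) (RingHom.injective_int _) ?_)
    rw [h8, map_zero]
  omega

end Pool.Agent.H883.ZS
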