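import Pool.Agent.H883.ZP.Dense

set_option autoImplicit false

/-!
# Points of a finitely generated algebra with prescribed values on a transcendence basis
-/

namespace Pool.Agent.H883.ZS

open MvPolynomial

/-- Let `t` be algebraically independent over the algebraically closed field `L` and let the
elements of the finite set `T` be algebraic over `L[t]`. Then there is a nonzero polynomial `b` such
that for every `τ` with `b(τ) ≠ 0` there is an `L`-homomorphism from `L[T, t]` to `L` which maps `t`
to `τ`. -/
theorem ext_point {L Ω : Type} [Field L] [IsAlgClosed L] [Field Ω] [Algebra L Ω] {d : ℕ}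
    (t : Fin d → Ω) (ht : AlgebraicIndependent L t) (T : Finset Ω)
    (hT : ∀ s ∈ T, ∃ p : Polynomial (MvPolynomial (Fin d) L), p ≠ 0 ∧
      p.eval₂ (aeval t : MvPolynomial (Fin d) L →ₐ[L] Ω).toRingHom s = 0) :
    ∃ b : MvPolynomial (Fin d) L, b ≠ 0 ∧ ∀ τ : Fin d → L, eval τ b ≠ 0 →
      ∃ ψ : Algebra.adjoin L ((T : Set Ω) ∪ Set.range t) →ₐ[L] L,
        ∀ j h, ψ ⟨t j, h⟩ = τ j := by
  classical
  choose! p hp0 hp using hT
  let b : MvPolynomial (Fin d) L := ∏ s ∈ T, (p s).leadingCoeff
  have hb0 : b ≠ 0 := Finset.prod_ne_zero_iff.2 fun s hs => by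
    simpa using hp0 s hs
  refine ⟨b, hb0, fun τ hτ => ?_⟩
  have htinj : Function.Injective (aeval t : MvPolynomial (Fin d) L →ₐ[L] Ω) := ht
  have hbt : aeval t b ≠ 0 := fun h => hb0 (htinj (by rw [h, map_zero]))
  let S : Set Ω := ((T : Set Ω) ∪ Set.range t) ∪ {(aeval t b)⁻¹}
  let C : Subalgebra L Ω := Algebra.adjoin L S
  have htC : ∀ j, t j ∈ C := fun j => Algebra.subset_adjoin (Or.inl (Or.inr ⟨j, rfl⟩))
  have hbC : (aeval t b)⁻¹ ∈ C := Algebra.subset_adjoin (Or.inr rfl)
  have hFT : Algebra.FiniteType L C := by
    refine (Subalgebra.fg_iff_finiteType C).1 ?_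
    have hfin : S.Finite := ((T.finite_toSet).union (Set.finite_range t)).union
      (Set.finite_singleton _)
    exact ⟨hfin.toFinset, by simp [C]⟩
  let g : MvPolynomial (Fin d) L →ₐ[L] C := aeval fun j => (⟨t j, htC j⟩ : C)
  have hgv : ∀ q, ((g q : C) : Ω) = aeval t q := fun q => by
    have := MvPolynomial.comp_aeval_apply (f := fun j => (⟨t j, htC j⟩ : C)) C.val q
    exact this
  have hginj : Function.Injective g := fun x y h => htinj (by rw [← hgv, ← hgv, h])
  have hu : IsUnit (g.toRingHom b) := by
    refine IsUnit.of_mul_eq_one (⟨(aeval t b)⁻¹, hbC⟩ : C) (Subtype.ext ?_)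
    show ((g b : C) : Ω) * (aeval t b)⁻¹ = 1
    rw [hgv, mul_inv_cancel₀ hbt]
  let B := Localization.Away b
  let f : B →+* C := IsLocalization.Away.lift b hu
  have hfa : ∀ q, f (algebraMap _ B q) = g q := fun q => IsLocalization.Away.lift_eq b hu q
  have hfinj : Function.Injective f := by
    rw [injective_iff_map_eq_zero]
    intro x hx
    obtain ⟨⟨r, s⟩, hs⟩ := IsLocalization.surj (Submonoid.powers b) x
    have h1 := congrArg f hs
    simp only [map_mul, hx, zero_mul, hfa] at h1
    have h2 : r = 0 := hginj (by rw [← h1, map_zero])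
    simp only [h2, map_zero] at hs
    have h3 : IsUnit (algebraMap (MvPolynomial (Fin d) L) B s) := IsLocalization.map_units B s
    exact (h3.mul_left_eq_zero).1 hs
  let ψ0 : B →+* L := IsLocalization.Away.lift b (g := (eval τ)) (isUnit_iff_ne_zero.2 hτ)
  have hψ0 : ∀ q, ψ0 (algebraMap _ B q) = eval τ q := fun q =>
    IsLocalization.Away.lift_eq b _ q
  have hfint : f.IsIntegral := by
    rintro ⟨x, hx⟩
    induction hx using Algebra.adjoin_induction with
    | mem x hx =>
      rcases hx with (hx | ⟨j, rfl⟩) | hx
      · have h1 : (p x).eval₂ g.toRingHom (⟨x, Algebra.subset_adjoin (Or.inl (Or.inl hx))⟩ : C)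
            = 0 := by
          apply Subtype.ext
          have h2 := Polynomial.hom_eval₂ (p x) g.toRingHom (C.val : C →+* Ω)
            (⟨x, Algebra.subset_adjoin (Or.inl (Or.inl hx))⟩ : C)
          have h3 : (C.val : C →+* Ω).comp g.toRingHom =
              (aeval t : MvPolynomial (Fin d) L →ₐ[L] Ω).toRingHom := RingHom.ext fun q => hgv q
          rw [h3] at h2
          refine h2.trans ?_
          exact hp x hx
        have h2 := g.toRingHom.isIntegralElem_leadingCoeff_mul (p x) _ h1
        obtain ⟨q, hqm, hq⟩ := h2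
        have h3 : f.IsIntegralElem (g.toRingHom (p x).leadingCoeff *
            (⟨x, Algebra.subset_adjoin (Or.inl (Or.inl hx))⟩ : C)) := by
          refine ⟨q.map (algebraMap _ B), hqm.map _, ?_⟩
          rw [Polynomial.eval₂_map]
          have h4 : f.comp (algebraMap _ B) = g.toRingHom := RingHom.ext fun r => hfa r
          rw [h4]
          exact hq
        obtain ⟨e, he⟩ : (p x).leadingCoeff ∣ b := Finset.dvd_prod_of_mem _ hx
        have h5 : f (algebraMap _ B e * IsLocalization.Away.invSelf b) *
            g.toRingHom (p x).leadingCoeff = 1 := by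
          have h6 : g.toRingHom (p x).leadingCoeff = f (algebraMap _ B (p x).leadingCoeff) :=
            (hfa _).symm
          rw [h6, ← map_mul]
          have h7 : algebraMap _ B e * IsLocalization.Away.invSelf b *
              algebraMap _ B (p x).leadingCoeff = 1 := by
            have h8 := IsLocalization.Away.mul_invSelf (S := B) b
            have h9 : algebraMap (MvPolynomial (Fin d) L) B b =
                algebraMap _ B (p x).leadingCoeff * algebraMap _ B e := by
              rw [← map_mul, ← he]
            rw [h9] at h8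
            linear_combination h8
          rw [h7, map_one]
        have h8 := (RingHom.isIntegralElem_map f (x := (algebraMap _ B e *
          IsLocalization.Away.invSelf b))).mul f h3
        rw [← mul_assoc, h5, one_mul] at h8
        exact h8
      · have := RingHom.isIntegralElem_map f (x := algebraMap _ B (X j : MvPolynomial (Fin d) L))
        rw [hfa] at this
        have h2 : g (X j) = (⟨t j, htC j⟩ : C) := aeval_X _ _
        rw [h2] at this
        exact this
      · have := RingHom.isIntegralElem_map f (x := (IsLocalization.Away.invSelf b : B))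
        have h2 : f (IsLocalization.Away.invSelf b) = (⟨(aeval t b)⁻¹, hbC⟩ : C) := by
          have h8 := congrArg f (IsLocalization.Away.mul_invSelf (S := B) b)
          rw [map_mul, hfa, map_one] at h8
          apply Subtype.ext
          have h9 := congrArg (Subtype.val) h8
          rw [Subalgebra.coe_mul, hgv] at h9
          exact (eq_inv_of_mul_eq_one_right h9)
        rw [h2] at this
        have hx' : x = (aeval t b)⁻¹ := hx
        subst hx'
        exact this
    | algebraMap r =>
      have := RingHom.isIntegralElem_map f (x := algebraMap (MvPolynomial (Fin d) L) B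
        (MvPolynomial.C r))
      rw [hfa] at this
      have h2 : g (MvPolynomial.C r) = algebraMap L C r := by
        rw [← MvPolynomial.algebraMap_eq, AlgHom.commutes]
      rw [h2] at this
      exact this
    | add x y hx hy ihx ihy => exact ihx.add f ihy
    | mul x y hx hy ihx ihy => exact ihx.mul f ihy
  have hker : RingHom.ker ψ0 ≠ ⊤ := RingHom.ker_ne_top ψ0
  have hmap : (RingHom.ker ψ0).map f ≠ ⊤ := fun h =>
    hker ((Ideal.map_eq_top_iff f hfinj hfint).1 h)
  have : Nontrivial (C ⧸ (RingHom.ker ψ0).map f) := Ideal.Quotient.nontrivial_iff.2 hmap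
  have : Algebra.FiniteType L (C ⧸ (RingHom.ker ψ0).map f) :=
    Algebra.FiniteType.of_surjective (Ideal.Quotient.mkₐ L _) Ideal.Quotient.mk_surjective
  obtain ⟨χ⟩ := Pool.Agent.H883.ZP.exists_point L (C ⧸ (RingHom.ker ψ0).map f)
  have hle : Algebra.adjoin L ((T : Set Ω) ∪ Set.range t) ≤ C :=
    Algebra.adjoin_mono Set.subset_union_left
  refine ⟨(χ.comp (Ideal.Quotient.mkₐ L _)).comp (Subalgebra.inclusion hle), fun j h => ?_⟩
  have h1 : algebraMap _ B (X j - MvPolynomial.C (τ j) : MvPolynomial (Fin d) L) ∈
      RingHom.ker ψ0 := by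
    rw [RingHom.mem_ker, hψ0]
    simp
  have h2 := Ideal.mem_map_of_mem f h1
  rw [hfa] at h2
  have h3 : g (X j - MvPolynomial.C (τ j)) = (⟨t j, htC j⟩ : C) - algebraMap L C (τ j) := by
    rw [map_sub, ← MvPolynomial.algebraMap_eq, AlgHom.commutes]
    congr 1
    exact aeval_X _ _
  rw [h3] at h2
  have h4 : χ (Ideal.Quotient.mkₐ L ((RingHom.ker ψ0).map f)
      ((⟨t j, htC j⟩ : C) - algebraMap L C (τ j))) = 0 := by
    have : Ideal.Quotient.mkₐ L ((RingHom.ker ψ0).map f)
      ((⟨t j, htC j⟩ : C) - algebraMap L C (τ j)) = 0 := Ideal.Quotient.eq_zero_iff_mem.2 h2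
    rw [this, map_zero]
  rw [map_sub, map_sub, AlgHom.commutes, AlgHom.commutes, sub_eq_zero] at h4
  exact h4

end Pool.Agent.H883.ZS
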