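import Pool.Agent.H883.ZS.Aff
import Pool.Agent.H883.ZR.Two

set_option autoImplicit false

/-!
# Comparable or lacunary heights: all subsets of the coordinates
-/

namespace Pool.Agent.H883.ZS

open MvPolynomial

theorem exists_le_fin {ι : Type} [Finite ι] (ε : ι → ℝ) (hε : ∀ f, 0 < ε f) :
    ∃ ε0 : ℝ, 0 < ε0 ∧ ∀ f, ε0 ≤ ε f := by
  by_cases hne : Nonempty ι
  · obtain ⟨f0, hf0⟩ := Finite.exists_min ε
    exact ⟨ε f0, hε f0, hf0⟩
  · exact ⟨1, one_pos, fun f => absurd ⟨f⟩ hne⟩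

theorem exists_ge_fin {ι : Type} [Finite ι] (N : ι → ℝ) : ∃ N0 : ℝ, ∀ f, N f ≤ N0 := by
  by_cases hne : Nonempty ι
  · obtain ⟨f0, hf0⟩ := Finite.exists_max N
    exact ⟨N f0, hf0⟩
  · exact ⟨1, fun f => absurd ⟨f⟩ hne⟩

/-- all subsets of `r + 1` of the `c` coordinates with comparable or bounded heights -/
theorem cmp_all (K0 : Type) [Field K0] [NumberField K0] (c r : ℕ) (a b : Fin c → K0)
    (ha : ∀ i, a i ≠ 0) (hb : ∀ i, b i ≠ 0) (Λ : ℝ) :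
    ∃ G : (Fin (r + 1) ↪ Fin c) → MvPolynomial (Fin (r + 1)) K0, (∀ e, G e ≠ 0) ∧
      ∃ ε : ℝ, 0 < ε ∧
      ∀ (K : Type) [Field K] [NumberField K] [Algebra K0 K] (P g e : Fin c ⊕ Fin c → K),
        (∀ r, P r ≠ 0) →
        (∀ i, algebraMap K0 K (a i) * P (Sum.inl i) + algebraMap K0 K (b i) * P (Sum.inr i) = 1) →
        (∀ r, P r = g r * e r) → (∃ m, Pool.Agent.H883.ZP.Codim g m ∧ 2 * c ≤ m + r) →
        (∀ r, Pool.Agent.H883.ZQ.ht (e r) ≤ ε) →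
        ∀ f : Fin (r + 1) ↪ Fin c,
          (∀ i j, Pool.Agent.H883.ZQ.ht (P (Sum.inl (f i))) ≤ Λ ∨
            Pool.Agent.H883.ZQ.ht (P (Sum.inl (f j))) ≤
              Λ * Pool.Agent.H883.ZQ.ht (P (Sum.inl (f i)))) →
          aeval (fun j => P (Sum.inl (f j))) (G f) = 0 := by
  classical
  have H := fun f : Fin (r + 1) ↪ Fin c => Pool.Agent.H883.ZQ.linesCmp (r + 1)
    (fun j => a (f j)) (fun j => b (f j)) (fun j => ha (f j)) (fun j => hb (f j)) Λ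
  choose G hG ε hε H using H
  obtain ⟨ε0, hε0, hle⟩ := exists_le_fin ε hε
  refine ⟨G, hG, ε0, hε0, ?_⟩
  intro K _ _ _ P g e h0 h4 h5 ⟨m, h6, hm⟩ h7 f h8
  exact H f K (P ∘ Sum.map f f) (g ∘ Sum.map f f) (e ∘ Sum.map f f) (fun r => h0 _)
    (fun i => h4 _) (fun r => h5 _)
    (Pool.Agent.H883.ZR.INT.codim_sub g f f.injective h6 (r + 1 + 1) (by omega))
    (fun r => (h7 _).trans (hle f)) h8

/-- all subsets of `r + 1` of the `c` coordinates with lacunary or bounded heights, or at most two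
large heights -/
theorem two_all (K0 : Type) [Field K0] [NumberField K0] (c r : ℕ) (a b : Fin c → K0)
    (ha : ∀ i, a i ≠ 0) (hb : ∀ i, b i ≠ 0) (B : ℝ) :
    ∃ G : (Fin (r + 1) ↪ Fin c) → MvPolynomial (Fin (r + 1)) K0, (∀ e, G e ≠ 0) ∧
      ∃ ε N : ℝ, 0 < ε ∧
      ∀ (K : Type) [Field K] [NumberField K] [Algebra K0 K] (P g e : Fin c ⊕ Fin c → K),
        (∀ r, P r ≠ 0) →
        (∀ i, algebraMap K0 K (a i) * P (Sum.inl i) + algebraMap K0 K (b i) * P (Sum.inr i) = 1) →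
        (∀ r, P r = g r * e r) → (∃ m, Pool.Agent.H883.ZP.Codim g m ∧ 2 * c ≤ m + r) →
        (∀ r, Pool.Agent.H883.ZQ.ht (e r) ≤ ε) →
        ∀ f : Fin (r + 1) ↪ Fin c,
          ((∀ i j, i ≠ j → Pool.Agent.H883.ZQ.ht (P (Sum.inl (f i))) ≤ B ∨
            Pool.Agent.H883.ZQ.ht (P (Sum.inl (f j))) ≤ B ∨
            N * Pool.Agent.H883.ZQ.ht (P (Sum.inl (f i))) ≤
              Pool.Agent.H883.ZQ.ht (P (Sum.inl (f j))) ∨
            N * Pool.Agent.H883.ZQ.ht (P (Sum.inl (f j))) ≤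
              Pool.Agent.H883.ZQ.ht (P (Sum.inl (f i)))) ∨
          (∀ i j k, i ≠ j → i ≠ k → j ≠ k → Pool.Agent.H883.ZQ.ht (P (Sum.inl (f i))) ≤ B ∨
            Pool.Agent.H883.ZQ.ht (P (Sum.inl (f j))) ≤ B ∨
            Pool.Agent.H883.ZQ.ht (P (Sum.inl (f k))) ≤ B)) →
          aeval (fun j => P (Sum.inl (f j))) (G f) = 0 := by
  classical
  have H := fun f : Fin (r + 1) ↪ Fin c => Pool.Agent.H883.ZR.two
    Pool.Agent.H883.ZR.S_LL_holds K0 (r + 1)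
    (fun j => a (f j)) (fun j => b (f j)) (fun j => ha (f j)) (fun j => hb (f j)) B
  choose G hG ε N hε H using H
  obtain ⟨ε0, hε0, hle⟩ := exists_le_fin ε hε
  obtain ⟨N0, hN0⟩ := exists_ge_fin N
  refine ⟨G, hG, ε0, N0, hε0, ?_⟩
  intro K _ _ _ P g e h0 h4 h5 ⟨m, h6, hm⟩ h7 f h8
  have hnn : ∀ x : K, 0 ≤ Pool.Agent.H883.ZQ.ht x := fun x => by
    unfold Pool.Agent.H883.ZQ.ht
    exact div_nonneg (Height.zero_le_logHeight₁ x) (Nat.cast_nonneg _)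
  refine H f K (P ∘ Sum.map f f) (g ∘ Sum.map f f) (e ∘ Sum.map f f) (fun r => h0 _)
    (fun i => h4 _) (fun r => h5 _)
    (Pool.Agent.H883.ZR.INT.codim_sub g f f.injective h6 (r + 1 + 1) (by omega))
    (fun r => (h7 _).trans (hle f)) ?_
  rcases h8 with h8 | h8
  · left
    intro i j hij
    rcases h8 i j hij with h | h | h | h
    · exact Or.inl h
    · exact Or.inr (Or.inl h)
    · exact Or.inr (Or.inr (Or.inl ((mul_le_mul_of_nonneg_right (hN0 f) (hnn _)).trans h)))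
    · exact Or.inr (Or.inr (Or.inr ((mul_le_mul_of_nonneg_right (hN0 f) (hnn _)).trans h)))
  · exact Or.inr h8

end Pool.Agent.H883.ZS
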