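import Pool.Agent.H883.ZS.Sub
import Pool.Agent.H883.ZQ.Sector

set_option autoImplicit false

/-!
# Bounded height in sectors: all subsets of the coordinates
-/

namespace Pool.Agent.H883.ZS

open MvPolynomial

/-- all subsets of `r` of the `c` coordinates with comparable heights, cones about the subgroups of
dimension at most `r` -/
theorem sector_all (K0 : Type) [Field K0] [NumberField K0] (c r : ℕ) (a b : Fin c → K0)
    (ha : ∀ i, a i ≠ 0) (hb : ∀ i, b i ≠ 0) (Λ : ℝ) :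
    ∃ G : (Fin r ↪ Fin c) → MvPolynomial (Fin r) K0, (∀ e, G e ≠ 0) ∧
      ∃ ε B : ℝ, 0 < ε ∧
      ∀ (K : Type) [Field K] [NumberField K] [Algebra K0 K] (P g e : Fin c ⊕ Fin c → K),
        (∀ r, P r ≠ 0) →
        (∀ i, algebraMap K0 K (a i) * P (Sum.inl i) + algebraMap K0 K (b i) * P (Sum.inr i) = 1) →
        (∀ r, P r = g r * e r) → (∃ m, Pool.Agent.H883.ZP.Codim g m ∧ 2 * c ≤ m + r) →
        (∀ i, Pool.Agent.H883.ZQ.ht (e (Sum.inl i)) ≤
            ε * (1 + Pool.Agent.H883.ZQ.ht (P (Sum.inl i))) ∧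
          Pool.Agent.H883.ZQ.ht (e (Sum.inr i)) ≤
            ε * (1 + Pool.Agent.H883.ZQ.ht (P (Sum.inl i)))) →
        ∀ f : Fin r ↪ Fin c,
          (∀ i j, Pool.Agent.H883.ZQ.ht (P (Sum.inl (f j))) ≤
            Λ * (1 + Pool.Agent.H883.ZQ.ht (P (Sum.inl (f i))))) →
          aeval (fun j => P (Sum.inl (f j))) (G f) = 0 ∨
            ∀ j, Pool.Agent.H883.ZQ.ht (P (Sum.inl (f j))) ≤ B ∧
              Pool.Agent.H883.ZQ.ht (P (Sum.inr (f j))) ≤ B := by
  classical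
  have H := fun f : Fin r ↪ Fin c => Pool.Agent.H883.ZQ.linesBH r
    (fun j => a (f j)) (fun j => b (f j)) (fun j => ha (f j)) (fun j => hb (f j)) Λ
  choose G hG ε B hε H using H
  obtain ⟨ε0, hε0, hle⟩ := exists_le_fin ε hε
  obtain ⟨B0, hB0⟩ := exists_ge_fin B
  refine ⟨G, hG, ε0, B0, hε0, ?_⟩
  intro K _ _ _ P g e h0 h4 h5 ⟨m, h6, hm⟩ h7 f h8
  have hnn : ∀ x : K, 0 ≤ 1 + Pool.Agent.H883.ZQ.ht x := fun x => by
    have : 0 ≤ Pool.Agent.H883.ZQ.ht x := by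
      unfold Pool.Agent.H883.ZQ.ht
      exact div_nonneg (Height.zero_le_logHeight₁ x) (Nat.cast_nonneg _)
    linarith
  rcases H f K (P ∘ Sum.map f f) (g ∘ Sum.map f f) (e ∘ Sum.map f f) (fun r => h0 _)
    (fun i => h4 _) (fun r => h5 _)
    (Pool.Agent.H883.ZR.INT.codim_sub g f f.injective h6 r (by omega))
    (fun s => by
      rcases s with i | i
      · exact ⟨i, (h7 (f i)).1.trans (mul_le_mul_of_nonneg_right (hle f) (hnn _))⟩
      · exact ⟨i, (h7 (f i)).2.trans (mul_le_mul_of_nonneg_right (hle f) (hnn _))⟩) h8 with h | h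
  · exact Or.inl h
  · exact Or.inr fun j => ⟨(h (Sum.inl j)).trans (hB0 f), (h (Sum.inr j)).trans (hB0 f)⟩

end Pool.Agent.H883.ZS
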